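import Pool.Agent.MP_16ecd2_an.H44.AbsA

/-!
The masses of centred ellipses determine planar equidistribution of a symmetric measure.
-/

namespace Pool.Agent.MP_16ecd2_an.H78

open Set Filter Topology Real MeasureTheory Metric Pool.Agent.MP_16ecd2_an.H44

theorem potter {M n : ℝ → ℝ} (hM : Monotone M) (h0 : ∀ s, 0 ≤ M s)
    (hn : ∀ᶠ R in atTop, 0 < n R)
    (H : ∀ a : ℝ, 0 < a → Tendsto (fun R => M (a * R) / n R) atTop (𝓝 (a ^ 2))) :
    ∀ᶠ R in atTop, 0 < R ∧ 0 < n R ∧ ∀ b : ℝ, 0 ≤ b → M (b * R) ≤ 10 * exp (2 * b) * n R := by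
  have a1 := (H 2 two_pos).eventually (gt_mem_nhds (show (2 : ℝ) ^ 2 < 9 / 2 by norm_num))
  have a2 := (H 1 one_pos).eventually (gt_mem_nhds (show (1 : ℝ) ^ 2 < 2 by norm_num))
  have a3 := (H 1 one_pos).eventually (lt_mem_nhds (show (9 / 10 : ℝ) < 1 ^ 2 by norm_num))
  have a4 : ∀ᶠ R in atTop, 0 < R ∧ 0 < n R ∧ M (2 * R) ≤ 5 * M R ∧ M R ≤ 2 * n R := by
    filter_upwards [a1, a2, a3, hn, eventually_gt_atTop 0] with R b1 b2 b3 b4 b5
    rw [one_mul] at b2 b3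
    rw [div_lt_iff₀ b4] at b1 b2
    rw [lt_div_iff₀ b4] at b3
    exact ⟨b5, b4, by linarith, b2.le⟩
  obtain ⟨R0, hR0⟩ := eventually_atTop.1 a4
  have a5 : ∀ k : ℕ, ∀ R ≥ R0, M (2 ^ k * R) ≤ 5 ^ k * M R := by
    intro k
    induction k with
    | zero => intro R _; simp
    | succ k ih =>
      intro R hR
      have h1 := ih (2 * R) (by linarith [(hR0 R hR).1])
      have h2 := (hR0 R hR).2.2.1
      rw [pow_succ, mul_assoc, pow_succ, mul_assoc]
      exact h1.trans (mul_le_mul_of_nonneg_left h2 (by positivity))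
  filter_upwards [eventually_ge_atTop R0] with R hR
  obtain ⟨c1, c2, -, c4⟩ := hR0 R hR
  refine ⟨c1, c2, fun b hb => ?_⟩
  have d1 : b ≤ 2 ^ (⌊b⌋₊ + 1) := by
    have : ((⌊b⌋₊ + 1 : ℕ) : ℝ) ≤ 2 ^ (⌊b⌋₊ + 1) := by exact_mod_cast Nat.lt_two_pow_self.le
    push_cast at this
    linarith [Nat.lt_floor_add_one b]
  have d2 : (5 : ℝ) ^ ⌊b⌋₊ ≤ exp (2 * b) := by
    have e1 : (5 : ℝ) ≤ exp 2 := by
      have := Real.quadratic_le_exp_of_nonneg (show (0 : ℝ) ≤ 2 by norm_num)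
      linarith
    calc (5 : ℝ) ^ ⌊b⌋₊ ≤ exp 2 ^ ⌊b⌋₊ := pow_le_pow_left₀ (by norm_num) e1 _
      _ = exp (⌊b⌋₊ * 2) := (exp_nat_mul _ _).symm
      _ ≤ exp (2 * b) := exp_le_exp.2 (by linarith [Nat.floor_le hb])
  calc M (b * R) ≤ M (2 ^ (⌊b⌋₊ + 1) * R) := hM (mul_le_mul_of_nonneg_right d1 c1.le)
    _ ≤ 5 ^ (⌊b⌋₊ + 1) * M R := a5 _ R hR
    _ ≤ (exp (2 * b) * 5) * (2 * n R) := by
      rw [pow_succ]
      exact mul_le_mul (mul_le_mul_of_nonneg_right d2 (by norm_num)) c4 (h0 _) (by positivity)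
    _ = _ := by ring

theorem level {c R t x : ℝ} (hc : 0 < c) (hR : 0 < R) (ht : 0 < t) (h1 : t ≤ 1) (hx : 0 ≤ x) :
    t ≤ exp (-(c * (R⁻¹ * x) ^ 2)) ↔ x ≤ √(-log t / c) * R := by
  have h2 : 0 ≤ -log t / c := div_nonneg (neg_nonneg.2 (log_nonpos ht.le h1)) hc.le
  rw [← log_le_iff_le_exp ht, ← div_le_iff₀ hR, le_sqrt (div_nonneg hx hR.le) h2, le_div_iff₀ hc,
    div_eq_inv_mul, le_neg, mul_comm c]

theorem gauss1 {X : Type} [MeasurableSpace X] (ν : Measure X) {q : X → ℝ} (hq : Measurable q)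
    (q0 : ∀ z, 0 ≤ q z) (hfin : ∀ s, ν {z | q z ≤ s} ≠ ⊤) {n : ℝ → ℝ}
    (hn : ∀ᶠ R in atTop, 0 < n R)
    (H : ∀ a : ℝ, 0 < a →
      Tendsto (fun R => ν.real {z | q z ≤ a * R} / n R) atTop (𝓝 (a ^ 2)))
    {c : ℝ} (hc : 0 < c) :
    (∀ᶠ R : ℝ in atTop, Integrable (fun z => exp (-(c * (R⁻¹ * q z) ^ 2))) ν) ∧
      Tendsto (fun R : ℝ => (∫ z, exp (-(c * (R⁻¹ * q z) ^ 2)) ∂ν) / n R) atTop
        (𝓝 (∫ t in Ioi (0 : ℝ), max 0 (-log t / c))) := by
  have P := potter (M := fun s => ν.real {z | q z ≤ s})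
    (fun _ s h => measureReal_mono (fun _ hz => le_trans hz h) (hfin s))
    (fun _ => measureReal_nonneg) hn H
  set S : ℝ → ℝ → Set X := fun R t => {z | t ≤ exp (-(c * (R⁻¹ * q z) ^ 2))} with hS
  set B : ℝ → ℝ := fun t => (10 * exp (2 / c) * exp 1) * (exp (-t) * t ^ ((1 / 2 : ℝ) - 1)) with hB
  have iB : IntegrableOn B (Ioi 0) := (GammaIntegral_convergent (by norm_num)).const_mul _
  have S1 : ∀ R t, 0 < R → 0 < t → t ≤ 1 → S R t = {z | q z ≤ √(-log t / c) * R} :=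
    fun R t a1 a2 a3 => Set.ext fun z => level hc a1 a2 a3 (q0 z)
  have S2 : ∀ R t, 1 < t → S R t = ∅ := fun R t a1 =>
    eq_empty_of_forall_notMem fun z hz => absurd (a1.trans_le hz)
      (not_lt.2 (exp_le_one_iff.2 (neg_nonpos.2 (by positivity))))
  have bd : ∀ᶠ R in atTop, 0 < n R ∧ ∀ t, 0 < t → ν (S R t) ≠ ⊤ ∧ ν.real (S R t) ≤ B t * n R := by
    filter_upwards [P] with R ⟨a1, a2, a3⟩
    refine ⟨a2, fun t ht => ?_⟩
    rcases le_or_gt t 1 with h1 | h1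
    · rw [S1 R t a1 ht h1]
      refine ⟨hfin _, (a3 _ (sqrt_nonneg _)).trans (mul_le_mul_of_nonneg_right ?_ a2.le)⟩
      have h2 : 0 ≤ -log t / c := div_nonneg (neg_nonneg.2 (log_nonpos ht.le h1)) hc.le
      have h3 : c * √(-log t / c) ^ 2 = -log t := by rw [sq_sqrt h2]; field_simp
      have h4 : 2 * √(-log t / c) ≤ 2 / c + c * √(-log t / c) ^ 2 / 2 := by
        have : 0 ≤ (c * √(-log t / c) - 2) ^ 2 / (2 * c) := by positivity
        have e : (c * √(-log t / c) - 2) ^ 2 / (2 * c) =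
          2 / c + c * √(-log t / c) ^ 2 / 2 - 2 * √(-log t / c) := by field_simp; ring
        linarith
      rw [hB]
      beta_reduce
      rw [rpow_def_of_pos ht, mul_assoc, mul_assoc, ← exp_add, ← exp_add, ← exp_add]
      exact mul_le_mul_of_nonneg_left (exp_le_exp.2 (by linarith)) (by norm_num)
    · rw [S2 R t h1]
      refine ⟨by simp, ?_⟩
      rw [measureReal_empty, hB]
      positivity
  have mf : ∀ R : ℝ, Measurable fun z => exp (-(c * (R⁻¹ * q z) ^ 2)) := fun R => by fun_prop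
  have it : ∀ᶠ R : ℝ in atTop, Integrable (fun z => exp (-(c * (R⁻¹ * q z) ^ 2))) ν := by
    filter_upwards [bd] with R ⟨a1, a2⟩
    refine ⟨(mf R).aestronglyMeasurable, ?_⟩
    rw [hasFiniteIntegral_iff_ofReal (.of_forall fun z => (exp_pos _).le),
      lintegral_eq_lintegral_meas_le _ (.of_forall fun z => (exp_pos _).le) (mf R).aemeasurable]
    refine lt_of_le_of_lt (setLIntegral_mono' measurableSet_Ioi fun t ht => ?_)
      (iB.mul_const (n R)).lintegral_lt_top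
    rw [← ofReal_measureReal (a2 t ht).1]
    exact ENNReal.ofReal_le_ofReal (a2 t ht).2
  refine ⟨it, Tendsto.congr' (f₁ := fun R => ∫ t in Ioi (0 : ℝ), ν.real (S R t) / n R) ?_ ?_⟩
  · filter_upwards [it] with R hR
    rw [hR.integral_eq_integral_meas_le (.of_forall fun z => (exp_pos _).le), integral_div]
  · refine tendsto_integral_filter_of_dominated_convergence B (.of_forall fun R => ?_) ?_ iB ?_
    · have : Antitone fun t => ν (S R t) := fun _ _ h => measure_mono fun _ hz => le_trans h hz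
      exact (this.measurable.ennreal_toReal.div_const _).aestronglyMeasurable
    · filter_upwards [bd] with R ⟨a1, a2⟩
      filter_upwards [ae_restrict_mem measurableSet_Ioi] with t ht
      rw [Real.norm_of_nonneg (div_nonneg measureReal_nonneg a1.le), div_le_iff₀ a1]
      exact (a2 t ht).2
    · filter_upwards [ae_restrict_mem measurableSet_Ioi,
        ae_restrict_of_ae (compl_mem_ae_iff.2 (measure_singleton (1 : ℝ)))] with t ht h1
      rcases lt_or_gt_of_ne (show t ≠ 1 from h1) with h2 | h2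
      · have h3 : 0 < -log t / c := div_pos (neg_pos.2 (log_neg ht h2)) hc
        have := H _ (sqrt_pos.2 h3)
        rw [sq_sqrt h3.le] at this
        rw [max_eq_right h3.le]
        refine this.congr' ((eventually_gt_atTop 0).mono fun R hR => ?_)
        beta_reduce
        rw [S1 R t hR ht h2.le]
      · rw [max_eq_left (div_nonpos_of_nonpos_of_nonneg (neg_nonpos.2 (log_nonneg h2.le)) hc.le)]
        simp [S2 _ t h2]

/-- The masses of centred ellipses are asymptotically proportional to their areas. -/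
def Cnt (μ : Measure ℂ) : Prop := ∀ g : ℂ →ₗ[ℝ] ℂ, LinearMap.det g = 1 → ∀ a : ℝ, 0 < a →
  Tendsto (fun R => μ.real {z | ‖g z‖ ≤ a * R} / N μ R) atTop (𝓝 (a ^ 2))

theorem cnt_vol : Cnt volume := fun g hg a ha => by
  refine tendsto_const_nhds.congr' ((eventually_gt_atTop 0).mono fun R hR => ?_)
  have e : {z | ‖g z‖ ≤ a * R} = g ⁻¹' closedBall 0 (a * R) := by ext; simp
  have h1 : volume.real {z | ‖g z‖ ≤ a * R} = N volume (a * R) := by
    rw [e, Measure.real, Measure.addHaar_preimage_linearMap _ (by rw [hg]; exact one_ne_zero), hg]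
    simp [N, Measure.real]
  beta_reduce
  rw [h1, N_vol hR.le, N_vol (by positivity)]
  field_simp

/-- Convergence of the rescaled integrals of `f`. -/
def Conv (μ : Measure ℂ) (f : ℂ → ℝ) : Prop :=
  (∀ᶠ R : ℝ in atTop, Integrable (fun z => f (R⁻¹ • z)) μ) ∧ Integrable f ∧
    Tendsto (fun R : ℝ => (∫ z, f (R⁻¹ • z) ∂μ) / N μ R) atTop (𝓝 (π⁻¹ * ∫ z, f z))

theorem gauss2 {μ : Measure ℂ} [IsFiniteMeasureOnCompacts μ] (h0 : μ ≠ 0) (H : Cnt μ)
    (g : ℂ →ₗ[ℝ] ℂ) (hg : LinearMap.det g = 1) {c : ℝ} (hc : 0 < c) :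
    Conv μ fun z => exp (-(c * ‖g z‖ ^ 2)) := by
  have cg : Continuous g := g.continuous_of_finiteDimensional
  have key : ∀ (ν : Measure ℂ) [IsFiniteMeasureOnCompacts ν], ν ≠ 0 → Cnt ν →
      (∀ᶠ R : ℝ in atTop, Integrable (fun z => exp (-(c * ‖g (R⁻¹ • z)‖ ^ 2))) ν) ∧
      Tendsto (fun R : ℝ => (∫ z, exp (-(c * ‖g (R⁻¹ • z)‖ ^ 2)) ∂ν) / N ν R) atTop
        (𝓝 (∫ t in Ioi (0 : ℝ), max 0 (-log t / c))) := by
    intro ν _ a1 a2
    have e : ∀ (R : ℝ) z, ‖g (R⁻¹ • z)‖ ^ 2 = (R⁻¹ * ‖g z‖) ^ 2 := fun R z => by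
      rw [map_smul, norm_smul, mul_pow, mul_pow, Real.norm_eq_abs, sq_abs]
    simp only [e]
    refine gauss1 ν cg.norm.measurable (fun z => norm_nonneg _) (fun s => ?_) (N_pos ν a1)
      (a2 g hg) hc
    have := (g.equivOfDetNeZero (by rw [hg]; exact one_ne_zero)).toContinuousLinearEquiv
      |>.toHomeomorph.isCompact_preimage.2 (isCompact_closedBall 0 s)
    convert (this.measure_lt_top (μ := ν)).ne using 2
    ext z
    simp
  obtain ⟨k1, k2⟩ := key μ h0 H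
  obtain ⟨k3, k4⟩ := key volume (NeZero.ne _) cnt_vol
  obtain ⟨R, b1, b2⟩ := (k3.and (eventually_gt_atTop 0)).exists
  refine ⟨k1, (integrable_comp_smul_iff volume _ (inv_pos.2 b2).ne').1 b1, ?_⟩
  convert k2 using 2
  refine tendsto_nhds_unique (tendsto_const_nhds.congr' ?_) k4
  filter_upwards [eventually_gt_atTop 0] with R hR
  rw [Measure.integral_comp_inv_smul_of_nonneg volume (fun z => exp (-(c * ‖g z‖ ^ 2))) hR.le,
    N_vol hR.le, Complex.finrank_real_complex, smul_eq_mul]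
  field_simp

theorem chol {α : ℝ} {β : ℂ} (h : ‖β‖ < α) : ∃ (g : ℂ →ₗ[ℝ] ℂ) (c : ℝ), LinearMap.det g = 1 ∧
    0 < c ∧ ∀ z : ℂ, c * ‖g z‖ ^ 2 = α * ‖z ^ 2‖ + (β * z ^ 2).re := by
  have hA : 0 < α + β.re := by linarith [(abs_le.1 (Complex.abs_re_le_norm β)).1]
  have hD : 0 < α ^ 2 - β.re ^ 2 - β.im ^ 2 := by
    have := Complex.sq_norm β
    rw [Complex.normSq_apply] at this
    nlinarith [norm_nonneg β]
  obtain ⟨c, hc, hc2⟩ : ∃ c : ℝ, 0 < c ∧ c ^ 2 = α ^ 2 - β.re ^ 2 - β.im ^ 2 :=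
    ⟨_, sqrt_pos.2 hD, sq_sqrt hD.le⟩
  obtain ⟨r, hr, hr2⟩ : ∃ r : ℝ, 0 < r ∧ r ^ 2 * c = α + β.re :=
    ⟨_, sqrt_pos.2 (div_pos hA hc), by rw [sq_sqrt (div_pos hA hc).le]; field_simp⟩
  refine ⟨Matrix.toLin Complex.basisOneI Complex.basisOneI !![r, -β.im / (r * c); 0, r⁻¹], c, ?_,
    hc, fun z => ?_⟩
  · rw [LinearMap.det_toLin, Matrix.det_fin_two_of]
    field_simp
    ring
  · rw [norm_pow, Complex.sq_norm, Complex.sq_norm, Complex.normSq_apply, Complex.normSq_apply]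
    have e1 : (β * z ^ 2).re = β.re * (z.re ^ 2 - z.im ^ 2) - β.im * (2 * z.re * z.im) := by
      simp only [pow_two, Complex.mul_re, Complex.mul_im]; ring
    have e2 : ∀ M : Matrix (Fin 2) (Fin 2) ℝ,
        (Matrix.toLin Complex.basisOneI Complex.basisOneI M z).re = M 0 0 * z.re + M 0 1 * z.im ∧
        (Matrix.toLin Complex.basisOneI Complex.basisOneI M z).im = M 1 0 * z.re + M 1 1 * z.im :=
      fun M => by simp [Matrix.toLin_apply, Matrix.mulVec, dotProduct]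
    rw [e1, (e2 _).1, (e2 _).2]
    simp only [Matrix.of_apply, Matrix.cons_val', Matrix.cons_val_zero, Matrix.cons_val_one,
      Matrix.cons_val_fin_one]
    have h1 : β.re = r ^ 2 * c - α := by linarith
    have h2 : β.im ^ 2 = r ^ 2 * c * (2 * α - r ^ 2 * c) - c ^ 2 := by rw [h1] at hc2; linarith
    rw [h1]
    field_simp
    linear_combination (z.im ^ 2) * h2

theorem Conv.add {μ : Measure ℂ} {f g : ℂ → ℝ} (hf : Conv μ f) (hg : Conv μ g) :
    Conv μ fun z => f z + g z := by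
  refine ⟨(hf.1.and hg.1).mono fun R h => h.1.add h.2, hf.2.1.add hg.2.1, ?_⟩
  rw [integral_add hf.2.1 hg.2.1, mul_add]
  refine (hf.2.2.add hg.2.2).congr' ((hf.1.and hg.1).mono fun R h => ?_)
  beta_reduce
  rw [integral_add h.1 h.2, add_div]

theorem Conv.smul {μ : Measure ℂ} {f : ℂ → ℝ} (hf : Conv μ f) (a : ℝ) :
    Conv μ fun z => a * f z := by
  refine ⟨hf.1.mono fun R h => h.const_mul a, hf.2.1.const_mul a, ?_⟩
  simp only [integral_const_mul, mul_div_assoc]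
  rw [mul_left_comm]
  exact hf.2.2.const_mul a

/-- Test functions from the one-point compactification of the plane of squares. -/
noncomputable def Φ (F : C(OnePoint ℂ, ℝ)) (z : ℂ) : ℝ :=
  F ((z ^ 2 : ℂ) : OnePoint ℂ) * exp (-‖z ^ 2‖)

/-- Exponentials of linear forms on the cone. -/
def S : Submonoid C(OnePoint ℂ, ℝ) where
  carrier := {F | ∃ (α : ℝ) (β : ℂ), ‖β‖ ≤ α ∧ ∀ w : ℂ, F w = exp (-(α * ‖w‖ + (β * w).re))}
  one_mem' := ⟨0, 0, by simp, by simp⟩
  mul_mem' := by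
    rintro F G ⟨α, β, h1, h2⟩ ⟨α', β', h3, h4⟩
    refine ⟨α + α', β + β', (norm_add_le _ _).trans (add_le_add h1 h3), fun w => ?_⟩
    rw [ContinuousMap.mul_apply, h2, h4, ← exp_add, add_mul β, Complex.add_re]
    ring_nf

theorem exists_S {α : ℝ} {β : ℂ} (h : ‖β‖ < α) : ∃ F ∈ S, F OnePoint.infty = 0 ∧
    ∀ w : ℂ, F w = exp (-(α * ‖w‖ + (β * w).re)) := by
  have t : Tendsto (fun w : ℂ => exp (-(α * ‖w‖ + (β * w).re))) (coclosedCompact ℂ) (𝓝 0) := by
    rw [coclosedCompact_eq_cocompact]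
    refine tendsto_exp_neg_atTop_nhds_zero.comp (tendsto_atTop_mono (fun w => ?_)
      (tendsto_norm_cocompact_atTop.const_mul_atTop (sub_pos.2 h)))
    have := (abs_le.1 (Complex.abs_re_le_norm (β * w))).1
    rw [norm_mul] at this
    linarith
  exact ⟨OnePoint.continuousMapMk ⟨_, by fun_prop⟩ 0 t, ⟨α, β, h.le, fun _ => rfl⟩, rfl,
    fun _ => rfl⟩

theorem sep : (Algebra.adjoin ℝ (S : Set C(OnePoint ℂ, ℝ))).SeparatesPoints := by
  intro x y hxy
  by_contra hc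
  have h : ∀ F ∈ S, F x = F y := fun F hF => by
    by_contra h
    exact hc ⟨F, ⟨F, Algebra.subset_adjoin hF, rfl⟩, h⟩
  obtain ⟨F1, m1, z1, e1⟩ := exists_S (α := 1) (β := 0) (by simp)
  obtain ⟨F2, m2, -, e2⟩ := exists_S (α := 2) (β := 1) (by simp)
  obtain ⟨F3, m3, -, e3⟩ := exists_S (α := 2) (β := Complex.I) (by simp)
  have h1 := h F1 m1
  have h2 := h F2 m2
  have h3 := h F3 m3
  induction x using OnePoint.rec <;> induction y using OnePoint.rec
  · exact hxy rfl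
  · rw [z1, e1] at h1; exact (exp_pos _).ne h1
  · rw [z1, e1] at h1; exact (exp_pos _).ne' h1
  · rw [e1, e1, exp_eq_exp] at h1
    rw [e2, e2, exp_eq_exp] at h2
    rw [e3, e3, exp_eq_exp] at h3
    simp only [zero_mul, Complex.zero_re, one_mul, Complex.I_mul_re] at h1 h2 h3
    exact hxy (congrArg _ (Complex.ext (by linarith) (by linarith)))

theorem conv_Φ {μ : Measure ℂ} [IsFiniteMeasureOnCompacts μ] (h0 : μ ≠ 0) (H : Cnt μ)
    (F : C(OnePoint ℂ, ℝ)) : Conv μ (Φ F) := by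
  have hS : ∀ G ∈ S, Conv μ (Φ G) := by
    rintro G ⟨α, β, h1, h2⟩
    obtain ⟨g, c, a1, a2, a3⟩ := chol (α := α + 1) (β := β) (by linarith)
    convert gauss2 h0 H g a1 a2 using 2 with z
    rw [Φ, h2, ← exp_add, a3]
    ring_nf
  have hA : ∀ G ∈ Algebra.adjoin ℝ (S : Set C(OnePoint ℂ, ℝ)), Conv μ (Φ G) := by
    intro G hG
    rw [← Subalgebra.mem_toSubmodule, Algebra.adjoin_eq_span, Submonoid.closure_eq] at hG
    induction hG using Submodule.span_induction with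
    | mem G h => exact hS G h
    | zero => convert (hS 1 S.one_mem).smul 0 using 2; simp [Φ]
    | add G G' _ _ h h' => convert h.add h' using 2; simp [Φ, add_mul]
    | smul a G _ h => convert h.smul a using 2; simp [Φ, mul_assoc]
  have one := hS 1 S.one_mem
  have cΦ : ∀ G, Continuous (Φ G) := fun G =>
    (G.continuous.comp (OnePoint.continuous_coe.comp (by fun_prop))).mul (by fun_prop)
  have bΦ : ∀ (G : C(OnePoint ℂ, ℝ)) z, ‖Φ G z‖ ≤ ‖G‖ * Φ 1 z := fun G z => by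
    rw [Φ, Φ, norm_mul, Real.norm_of_nonneg (exp_pos _).le, ContinuousMap.one_apply, one_mul]
    exact mul_le_mul_of_nonneg_right (G.norm_coe_le_norm _) (exp_pos _).le
  have key : ∀ (G : C(OnePoint ℂ, ℝ)) (ν : Measure ℂ) (R : ℝ),
      Integrable (fun z => Φ 1 (R • z)) ν → Integrable (fun z => Φ G (R • z)) ν ∧
        |∫ z, Φ G (R • z) ∂ν| ≤ ‖G‖ * ∫ z, Φ 1 (R • z) ∂ν := fun G ν R h => by
    refine ⟨(h.const_mul ‖G‖).mono' ((cΦ G).comp (continuous_const_smul R)).aestronglyMeasurable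
      (.of_forall fun z => bΦ G _), ?_⟩
    rw [← integral_const_mul, ← Real.norm_eq_abs]
    exact norm_integral_le_of_norm_le (h.const_mul _) (.of_forall fun z => bΦ G _)
  have key2 : ∀ (G G' : C(OnePoint ℂ, ℝ)) (ν : Measure ℂ) (R : ℝ),
      Integrable (fun z => Φ 1 (R • z)) ν →
        |∫ z, Φ G (R • z) ∂ν - ∫ z, Φ G' (R • z) ∂ν| ≤ ‖G - G'‖ * ∫ z, Φ 1 (R • z) ∂ν :=
    fun G G' ν R h => by
      rw [← integral_sub (key G ν R h).1 (key G' ν R h).1]
      convert (key (G - G') ν R h).2 using 4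
      simp [Φ, sub_mul]
  have i1 : Integrable fun z => Φ 1 ((1 : ℝ) • z) := by simpa using one.2.1
  refine ⟨one.1.mono fun R h => (key F μ _ h).1, by simpa using (key F _ _ i1).1,
    approx fun ε hε => ?_⟩
  set I := π⁻¹ * ∫ z, Φ 1 z with hI
  have I0 : 0 ≤ I := mul_nonneg (by positivity)
    (integral_nonneg fun z => mul_nonneg zero_le_one (exp_pos _).le)
  obtain ⟨G, hG⟩ := ContinuousMap.exists_mem_subalgebra_near_continuousMap_of_separatesPoints _ sep
    F (ε / (I + 1)) (by positivity)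
  have hG2 : ‖(G : C(OnePoint ℂ, ℝ)) - F‖ * I ≤ ε := by
    rw [lt_div_iff₀ (by positivity)] at hG
    nlinarith [norm_nonneg ((G : C(OnePoint ℂ, ℝ)) - F)]
  refine ⟨_, _, _, _, (hA G G.2).2.2, one.2.2.const_mul ‖(G : C(OnePoint ℂ, ℝ)) - F‖, hG2, ?_, ?_⟩
  · have := key2 G F _ _ i1
    simp only [one_smul] at this
    rw [← mul_sub, abs_mul, abs_of_nonneg (by positivity : 0 ≤ π⁻¹)]
    refine le_trans (mul_le_mul_of_nonneg_left this (by positivity)) ?_
    rwa [mul_left_comm]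
  · filter_upwards [one.1] with R hR
    rw [← sub_div, abs_div, abs_of_nonneg (N_nonneg μ R), abs_sub_comm, ← mul_div_assoc]
    exact div_le_div_of_nonneg_right (key2 G F _ _ hR) (N_nonneg μ R)

theorem exists_Φ {f : ℂ → ℝ} (h1 : Continuous f) (h2 : HasCompactSupport f) :
    ∃ F, ∀ z, Φ F z = (f z + f (-z)) / 2 := by
  choose s hs using fun w : ℂ => IsAlgClosed.exists_pow_nat_eq w two_pos
  set F : ℂ → ℝ := fun w => (f (s w) + f (-s w)) / 2 * exp ‖w‖ with hF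
  have e : ∀ z, F (z ^ 2) = (f z + f (-z)) / 2 * exp ‖z ^ 2‖ := fun z => by
    rw [hF]
    beta_reduce
    rcases sq_eq_sq_iff_eq_or_eq_neg.1 (hs (z ^ 2)) with h | h
    · rw [h]
    · rw [h, neg_neg, add_comm]
  have cF : Continuous F := by
    rw [← (Complex.isOpenQuotientMap_pow 2).continuous_comp_iff]
    simp only [Function.comp_def, e]
    fun_prop
  obtain ⟨T, hT⟩ := h2.isCompact.isBounded.subset_closedBall 0
  have f0 : ∀ z, T < ‖z‖ → f z = 0 := fun z hz =>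
    image_eq_zero_of_notMem_tsupport fun h => absurd (hT h) (by simpa using hz)
  have sF : HasCompactSupport F := supp_of (T := T ^ 2) fun w hw => by
    have : T < ‖s w‖ := by
      rw [← hs w, norm_pow] at hw
      exact lt_of_pow_lt_pow_left₀ 2 (norm_nonneg _) hw
    rw [hF]
    simp [f0 _ this, f0 (-s w) (by rwa [norm_neg])]
  refine ⟨OnePoint.continuousMapMk ⟨F, cF⟩ 0
    (by rw [coclosedCompact_eq_cocompact]; exact sF.is_zero_at_infty), fun z => ?_⟩
  change F (z ^ 2) * _ = _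
  rw [e, mul_assoc, ← exp_add, add_neg_cancel, exp_zero, mul_one]

theorem pl_of_count (μ : Measure ℂ) [IsFiniteMeasureOnCompacts μ] (h0 : μ ≠ 0)
    (hs : μ.map (fun z => -z) = μ)
    (H : ∀ g : ℂ →ₗ[ℝ] ℂ, LinearMap.det g = 1 → ∀ a : ℝ, 0 < a →
      Tendsto (fun R => μ.real {z | ‖g z‖ ≤ a * R} / N μ R) atTop (𝓝 (a ^ 2))) :
    Pl μ (N μ) := by
  intro f h1 h2
  obtain ⟨F, hF⟩ := exists_Φ h1 h2
  have key : ∀ (ν : Measure ℂ) [IsFiniteMeasureOnCompacts ν], ν.map (fun z => -z) = ν →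
      ∀ R : ℝ, 0 < R → ∫ z, Φ F (R⁻¹ • z) ∂ν = ∫ z, f (R⁻¹ • z) ∂ν := by
    intro ν _ hν R hR
    have i1 := int_smul ν h1 h2 hR
    have i2 : Integrable (fun z => f (-(R⁻¹ • z))) ν :=
      int_smul ν (h1.comp continuous_neg) (h2.comp_homeomorph (Homeomorph.neg ℂ)) hR
    have e : ∫ z, f (-(R⁻¹ • z)) ∂ν = ∫ z, f (R⁻¹ • z) ∂ν := by
      conv_rhs => rw [← hν]
      rw [integral_map (by fun_prop) (by fun_prop)]
      simp only [smul_neg]
    simp only [hF]
    rw [integral_div, integral_add i1 i2, e]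
    ring
  have k1 := key volume (Measure.map_neg_eq_self _) 1 one_pos
  simp only [inv_one, one_smul] at k1
  rw [← k1]
  refine (conv_Φ h0 H F).2.2.congr' ((eventually_gt_atTop 0).mono fun R hR => ?_)
  beta_reduce
  rw [key μ hs R hR]

end Pool.Agent.MP_16ecd2_an.H78
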